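import Pool.Agent.MQG.StmtsC

set_option autoImplicit false

/-!
# The slices of `W` and the scaling group
-/

namespace Pool.Agent.MQG.H92

open scoped InnerProductSpace InnerProduct Topology ComplexConjugate
open Complex Filter

theorem shc : ShcStmt := by
  intro ι M s f g hf hg p q hp hq
  have hV := M.V_group
  have hT : ∀ (t : ℝ) (ξ : L2 (ι × ι)),
      M.W (MQG.tens (M.V t) (M.V t) ξ) = MQG.tens (M.V t) (M.V t) (M.W ξ) := by
    intro t ξ
    exact congrArg (fun T : Op (ι × ι) => T ξ) (M.inv t)
  have h1 := hf.tn (hp.shift hV (I * s))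
  have h2 := hg.tn (hq.shift hV (-(I * s)))
  have h3 := Traj.inner_const (hV.tens hV) hT h1 h2 (I * s)
  have hc : conj (I * (s : ℂ)) = -(I * s) := by
    rw [map_mul, conj_I, conj_ofReal]
    ring
  rw [hc] at h3
  simp only [neg_add_cancel, add_neg_cancel, zero_add] at h3
  rw [inner_co, inner_co]
  exact h3

end Pool.Agent.MQG.H92
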